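import Pool.Agent.Helper79.PN.Lem

set_option autoImplicit false

/-!
Module BEL of the project PN: there is spectrum below the gap.
-/

namespace Pool.Agent.Helper14.PN

open Pool.Agent.Helper79.PN
open scoped Classical

theorem bel_zeta : ‖zeta‖ = 1 := by
  unfold zeta
  have h : (2 * Real.pi * Complex.I / 5 : ℂ) = ((2 * Real.pi / 5 : ℝ) : ℂ) * Complex.I := by
    push_cast
    ring
  rw [h, Complex.norm_exp_ofReal_mul_I]

theorem bel_hh (θ : ℂ) (K : Lam) (j : ZMod 5) : |hh θ K j| ≤ ‖yy θ K‖ := by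
  unfold hh
  refine (Complex.abs_re_le_norm _).trans (le_of_eq ?_)
  rw [norm_mul, Complex.norm_conj, norm_pow, bel_zeta, one_pow, mul_one]

theorem bel_cc (k : ZMod 5) : cc k ≤ 1 := by
  have h1 := g_gt
  have h2 := g_lt
  unfold cc
  split_ifs
  · exact le_refl _
  · linarith
  · linarith

theorem bel_single (θ : ℂ) (v : Vert θ) : ∃ x : Hil θ, ‖x‖ = 1 ∧ (x : Vert θ → ℂ) v = 1 ∧
    (∀ w, w ≠ v → (x : Vert θ → ℂ) w = 0) ∧
    ∀ y : Hil θ, (inner ℂ x y : ℂ) = (y : Vert θ → ℂ) v := by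
  refine ⟨lp.single 2 v (1 : ℂ), ?_, ?_, ?_, ?_⟩
  · have h := lp.norm_single (E := fun _ : Vert θ => ℂ) (p := 2) (by norm_num) v (1 : ℂ)
    rw [h]
    exact norm_one
  · exact lp.single_apply_self (E := fun _ : Vert θ => ℂ) 2 v (1 : ℂ)
  · intro w hw
    exact lp.single_apply_ne (E := fun _ : Vert θ => ℂ) 2 v (1 : ℂ) hw
  · intro y
    have h := lp.inner_single_left (𝕜 := ℂ) (G := fun _ : Vert θ => ℂ) v (1 : ℂ) y
    rw [h]
    simp

theorem st_BEL (hPEN : ST_PEN) (hNBX : ST_NBX) (hOPX : ST_OPX) (hSPC : ST_SPC) (hDEN : ST_DEN) :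
    ST_BEL := by
  intro θ H hns hH
  obtain ⟨H0, -, hsa, huniq⟩ := hOPX θ
  have hH0 : H = H0 := huniq H hH
  obtain ⟨K, hl, hK⟩ := hDEN θ 0 1 (1 / 20) (by norm_num)
  rw [sub_zero] at hK
  obtain ⟨P, hn, hh', hInV⟩ := hPEN θ hns
  have g1 := g_gt
  have g2 := g_lt
  have hsm : ∀ j, |P.h K j| < 1 / 20 := fun j => by
    rw [hh']
    exact (bel_hh θ K j).trans_lt hK
  have hPn : P.n K = 1 := by rw [hn]; exact hl
  have hA : Acc θ K := by
    rw [← hInV, inv1 hPn]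
    intro j
    have h := (abs_lt.1 (hsm j)).1
    linarith
  have hA2 : ∀ i, Acc θ (K + e i) := by
    intro i
    rw [← hInV, inv2 (by rw [P.n_add, hPn]; norm_num)]
    intro j
    rw [P.h_add]
    have h := (abs_lt.1 (hsm j)).2
    have h' := bel_cc (i - j)
    linarith
  let v : Vert θ := ⟨K, hA⟩
  obtain ⟨-, hcard, hv, -⟩ := hNBX θ v
  have hc5 : (5 : ℝ) ≤ ((nbV θ v).card : ℝ) := by
    rw [hcard]
    unfold adj
    have h : ∑ _ : ZMod 5, (1 : ℝ) = 5 := by
      rw [Finset.sum_const, Finset.card_univ, ZMod.card]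
      norm_num
    rw [← h]
    refine Finset.sum_le_sum fun i _ => ?_
    have e1 : ind (Acc θ (v.1 + e i)) = 1 := ind_true (hA2 i)
    have e2 := ind_nonneg (Acc θ (v.1 - e i))
    linarith
  obtain ⟨x, hx, hxv, hxw, hxi⟩ := bel_single θ v
  have hin : (inner ℂ x (H x) : ℂ) = ((-((nbV θ v).card : ℝ) : ℝ) : ℂ) := by
    rw [hxi, hH x v]
    have h2 : ∀ w ∈ nbV θ v, (x : Vert θ → ℂ) w - (x : Vert θ → ℂ) v = -1 := by
      intro w hw
      have hne : w ≠ v := by
        intro he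
        rw [he] at hw
        exact hv hw
      rw [hxw w hne, hxv]
      ring
    rw [Finset.sum_congr rfl h2]
    simp
  exact hSPC (Hil θ) H x (-16 / 5) (-((nbV θ v).card : ℝ)) (by rw [hH0]; exact hsa) hx
    (by linarith) hin

end Pool.Agent.Helper14.PN
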