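import Pool.Agent.Helper79.PN.Lem

set_option autoImplicit false

/-!
Module BLB of the project PN: the form `BL` is bounded.
-/

namespace Pool.Agent.Helper14.PN

open Pool.Agent.Helper79.PN
open scoped Classical

theorem blb_sum (a : Lam → ℝ) (ha : Sq a) (φ : ZMod 5 → Lam) :
    HasSum (fun z : Lam × ZMod 5 => a (z.1 + φ z.2) ^ 2) (5 * ∑' K, a K ^ 2) := by
  have h1 : HasSum (fun _ : ZMod 5 => (1 : ℝ)) 5 := by
    have h := hasSum_fintype (fun _ : ZMod 5 => (1 : ℝ))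
    have e : ∑ _ : ZMod 5, (1 : ℝ) = 5 := by
      rw [Finset.sum_const, Finset.card_univ, ZMod.card]
      norm_num
    rwa [e] at h
  have h2 : HasSum (fun K => a K ^ 2) (∑' K, a K ^ 2) := ha.hasSum
  have hs : Summable (fun x : Lam × ZMod 5 => a x.1 ^ 2 * (1 : ℝ)) :=
    Summable.mul_of_nonneg (f := fun K => a K ^ 2) (g := fun _ : ZMod 5 => (1 : ℝ)) h2.summable
      h1.summable (fun K => sq_nonneg _) (fun _ => zero_le_one)
  have h3 := h2.mul h1 hs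
  let E : (Lam × ZMod 5) ≃ (Lam × ZMod 5) :=
    { toFun := fun z => (z.1 + φ z.2, z.2)
      invFun := fun z => (z.1 - φ z.2, z.2)
      left_inv := fun z => by simp
      right_inv := fun z => by simp }
  have h4 := (Equiv.hasSum_iff E).2 h3
  have e : (fun z : Lam × ZMod 5 => a (z.1 + φ z.2) ^ 2) =
      ((fun x : Lam × ZMod 5 => a x.1 ^ 2 * (1 : ℝ)) ∘ E) := by
    funext z
    simp [E]
  rw [e, mul_comm 5]
  exact h4

theorem blb_am (ε c x y : ℝ) (hε : 0 < ε) (hc : 0 ≤ c) (hc1 : c ≤ 1) :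
    |c * (x * y)| ≤ (ε * y ^ 2 + ε⁻¹ * x ^ 2) / 2 := by
  have h1 : |c * (x * y)| ≤ |x * y| := by
    rw [abs_mul, abs_of_nonneg hc]
    exact mul_le_of_le_one_left (abs_nonneg _) hc1
  refine h1.trans ?_
  have hs : 0 < √ε := Real.sqrt_pos.2 hε
  have hss : √ε * √ε = ε := Real.mul_self_sqrt hε.le
  have hi : (√ε)⁻¹ * (√ε)⁻¹ = ε⁻¹ := by
    rw [← mul_inv, hss]
  have hm : (√ε)⁻¹ * √ε = 1 := inv_mul_cancel₀ hs.ne'
  have e1 : (√ε * y + (√ε)⁻¹ * x) ^ 2 = ε * y ^ 2 + 2 * (x * y) + ε⁻¹ * x ^ 2 := by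
    linear_combination y ^ 2 * hss + x ^ 2 * hi + 2 * x * y * hm
  have e2 : (√ε * y - (√ε)⁻¹ * x) ^ 2 = ε * y ^ 2 - 2 * (x * y) + ε⁻¹ * x ^ 2 := by
    linear_combination y ^ 2 * hss + x ^ 2 * hi - 2 * x * y * hm
  rw [abs_le]
  constructor
  · linarith [sq_nonneg (√ε * y + (√ε)⁻¹ * x)]
  · linarith [sq_nonneg (√ε * y - (√ε)⁻¹ * x)]

theorem st_BLB : ST_BLB := by
  intro P u a ε hu ha hε
  have key : ∀ (φ ψ : ZMod 5 → Lam), HasSum (fun z : Lam × ZMod 5 =>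
      (ε * a (z.1 + ψ z.2) ^ 2 + ε⁻¹ * u (z.1 + φ z.2) ^ 2) / 2)
      ((ε * (5 * ∑' K, a K ^ 2) + ε⁻¹ * (5 * ∑' K, u K ^ 2)) / 2) := fun φ ψ =>
    (((blb_sum a ha ψ).mul_left ε).add ((blb_sum u hu φ).mul_left ε⁻¹)).div_const 2
  have k1 := key (fun m => e (m + 1)) (fun m => e (m - 2))
  have k2 := key (fun m => e (m - 1)) (fun m => e (m + 2))
  have k3 := key (fun m => e (m + 2) + e (m - 2)) (fun _ => 0)
  have k4 := key (fun _ => 0) (fun m => e (m + 1) + e (m - 1))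
  have hk := ((k1.add k2).add k3).add k4
  have hb : ‖BL P u a‖ ≤ _ := tsum_of_norm_bounded hk (fun z => by
    have a1 := blb_am ε (ind (X1 P z.1 z.2)) (u (z.1 + e (z.2 + 1))) (a (z.1 + e (z.2 - 2))) hε
      (ind_nonneg _) (ind_le_one _)
    have a2 := blb_am ε (ind (X1 P z.1 z.2)) (u (z.1 + e (z.2 - 1))) (a (z.1 + e (z.2 + 2))) hε
      (ind_nonneg _) (ind_le_one _)
    have a3 := blb_am ε (ind (X1 P z.1 z.2)) (u (z.1 + e (z.2 + 2) + e (z.2 - 2))) (a z.1) hε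
      (ind_nonneg _) (ind_le_one _)
    have a4 := blb_am ε (ind (T1 P z.1 z.2)) (u z.1) (a (z.1 + e (z.2 + 1) + e (z.2 - 1))) hε
      (ind_nonneg _) (ind_le_one _)
    rw [Real.norm_eq_abs]
    simp only [add_zero, ← add_assoc]
    rw [abs_le] at a1 a2 a3 a4 ⊢
    constructor
    · linarith [a1.1, a2.1, a3.1, a4.1]
    · linarith [a1.2, a2.2, a3.2, a4.2])
  rw [Real.norm_eq_abs] at hb
  refine hb.trans (le_of_eq ?_)
  ring

end Pool.Agent.Helper14.PN
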